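import Pool.Agent.H251.V9

/-!
# MP_cdcde1_an, Q1: many Banach spaces which are not isomorphic to any `Y** / Y`

The starting result gives one Banach space which is not of the form `Y** / Y`. Here: for every
cardinal `κ ≤ 𝔠` with `2 ^ κ > 𝔠` there are `2 ^ κ` pairwise non-isomorphic closed subspaces of
`ℓ_∞`, of density character `κ`, containing all unit vectors, none of which is of the form
`Y** / Y`. Moreover at most continuum many of the spaces `X_B`, `B` a set of branches of the dyadic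
tree, are of the form `Y** / Y`.
-/

set_option maxSynthPendingDepth 3
set_option autoImplicit false

open Set Filter Topology Cardinal BidQ

namespace Pool.Agent.Results.MP_cdcde1_an.ManyNonQuotients

universe u

/-- The bidual `Y**` of the normed space `Y`, with its usual norm. -/
def Bidual (𝕜 : Type) [RCLike 𝕜] (Y : Type u) [NormedAddCommGroup Y] [NormedSpace 𝕜 Y] :
    Type u :=
  StrongDual 𝕜 (StrongDual 𝕜 Y)

noncomputable instance (𝕜 : Type) [RCLike 𝕜] (Y : Type u) [NormedAddCommGroup Y]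
    [NormedSpace 𝕜 Y] : NormedAddCommGroup (Bidual 𝕜 Y) :=
  (ContinuousLinearMap.toNormedAddCommGroup : NormedAddCommGroup (StrongDual 𝕜 Y →L[𝕜] 𝕜))

noncomputable instance (𝕜 : Type) [RCLike 𝕜] (Y : Type u) [NormedAddCommGroup Y]
    [NormedSpace 𝕜 Y] : NormedSpace 𝕜 (Bidual 𝕜 Y) :=
  (ContinuousLinearMap.toNormedSpace : NormedSpace 𝕜 (StrongDual 𝕜 Y →L[𝕜] 𝕜))

/-- The canonical embedding of `Y` into `Y**`, as a linear map: `y` goes to `f ↦ f y`. -/
noncomputable def canon (𝕜 : Type) [RCLike 𝕜] (Y : Type u) [NormedAddCommGroup Y]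
    [NormedSpace 𝕜 Y] : Y →ₗ[𝕜] Bidual 𝕜 Y :=
  (NormedSpace.inclusionInDoubleDual 𝕜 Y).toLinearMap

/-- The Banach space `X` is isomorphic to `Y** / Y` for some Banach space `Y` (in the universe
`u`). -/
def IsBidualQuotient (𝕜 : Type) [RCLike 𝕜] (X : Type) [NormedAddCommGroup X]
    [NormedSpace 𝕜 X] : Prop :=
  ∃ (Y : Type u) (_ : NormedAddCommGroup Y) (_ : NormedSpace 𝕜 Y) (_ : CompleteSpace Y),
    Nonempty ((Bidual 𝕜 Y ⧸ LinearMap.range (canon 𝕜 Y)) ≃L[𝕜] X)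

variable {𝕜 : Type} [RCLike 𝕜]

/-- representable by a separable space -/
def RepS (𝕜 : Type) [RCLike 𝕜] (B : Set Br) : Prop :=
  ∃ s : ℕ → L 𝕜, Rep 𝕜 (XB 𝕜 B) ↥(Submodule.span 𝕜 (range s)).topologicalClosure

theorem repS_of_quotient {B : Set Br} (h : IsBidualQuotient.{u} 𝕜 (XB 𝕜 B)) : RepS 𝕜 B := by
  obtain ⟨Y, _, _, _, ⟨e⟩⟩ := h
  have hrep : Rep 𝕜 (XB 𝕜 B) Y := by
    let q₁ : Bidual 𝕜 Y →L[𝕜] XB 𝕜 B :=
      (e : _ →L[𝕜] XB 𝕜 B).comp (LinearMap.range (canon 𝕜 Y)).mkQL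
    have h1 : Function.Surjective q₁ := e.surjective.comp (Submodule.mkQ_surjective _)
    have h2 : ∀ w : Bidual 𝕜 Y, q₁ w = 0 ↔ w ∈ range (canon 𝕜 Y) := by
      intro w
      show e (Submodule.Quotient.mk w) = 0 ↔ _
      rw [map_eq_zero_iff e e.injective, Submodule.Quotient.mk_eq_zero]
      exact Iff.rfl
    let q₂ : StrongDual 𝕜 (StrongDual 𝕜 Y) →L[𝕜] XB 𝕜 B := q₁
    exact ⟨q₂, h1, h2⟩
  obtain ⟨S, hSc, hrep⟩ := thmR (evB 𝕜 B) (norm_evB_le B) (propS_XB B) hrep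
  have : CompleteSpace (cs 𝕜 S) := (Submodule.isClosed_topologicalClosure _).completeSpace_coe
  have : TopologicalSpace.SeparableSpace (cs 𝕜 S) := by
    have h1 : TopologicalSpace.IsSeparable ((cs 𝕜 S : Submodule 𝕜 Y) : Set Y) := by
      have h2 : TopologicalSpace.IsSeparable (Submodule.span 𝕜 S : Set Y) := hSc.isSeparable.span
      exact h2.closure
    exact h1.separableSpace
  obtain ⟨s, ⟨i⟩⟩ := embed (𝕜 := 𝕜) (cs 𝕜 S)
  exact ⟨s, hrep.congr i⟩

/-- at most continuum many of the spaces are representable -/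
theorem card_repS : #{B : Set Br // RepS 𝕜 B} ≤ 𝔠 := by
  have hs : ∀ B : {B : Set Br // RepS 𝕜 B}, ∃ s : ℕ → L 𝕜,
      Rep 𝕜 (XB 𝕜 B.1) ↥(Submodule.span 𝕜 (range s)).topologicalClosure := fun B => B.2
  choose s hs using hs
  have H : ∀ t : ℕ → L 𝕜, ∃ j : Set Br → ℝ, InjOn j
      {B | Rep 𝕜 (XB 𝕜 B) ↥(Submodule.span 𝕜 (range t)).topologicalClosure} := by
    intro t
    have h1 := card_rep (𝕜 := 𝕜) ↥(Submodule.span 𝕜 (range t)).topologicalClosure
    rw [← Cardinal.mk_real] at h1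
    obtain ⟨g⟩ := Cardinal.le_def _ _ |>.mp h1
    classical
    refine ⟨fun B => if h : Rep 𝕜 (XB 𝕜 B) ↥(Submodule.span 𝕜 (range t)).topologicalClosure
      then g ⟨B, h⟩ else 0, ?_⟩
    intro B hB C hC hBC
    have hB' : Rep 𝕜 (XB 𝕜 B) ↥(Submodule.span 𝕜 (range t)).topologicalClosure := hB
    have hC' : Rep 𝕜 (XB 𝕜 C) ↥(Submodule.span 𝕜 (range t)).topologicalClosure := hC
    simp only [dif_pos hB', dif_pos hC'] at hBC
    have := g.injective hBC
    exact congrArg Subtype.val this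
  choose j hj using H
  have hinj : Function.Injective (fun B : {B : Set Br // RepS 𝕜 B} =>
      ((s B, j (s B) B.1) : (ℕ → L 𝕜) × ℝ)) := by
    intro B C h
    simp only [Prod.mk.injEq] at h
    obtain ⟨h1, h2⟩ := h
    have hB := hs B
    have hC := hs C
    rw [h1] at hB h2
    exact Subtype.ext (hj (s C) hB hC h2)
  refine (Cardinal.mk_le_of_injective hinj).trans ?_
  rw [Cardinal.mk_prod, Cardinal.lift_id, Cardinal.lift_id, Cardinal.mk_real, ← Cardinal.power_def,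
    Cardinal.mk_nat]
  calc #(L 𝕜) ^ ℵ₀ * 𝔠 ≤ 𝔠 ^ ℵ₀ * 𝔠 := by
        gcongr
        exact Cardinal.power_le_power_right card_L
    _ = 𝔠 := by rw [Cardinal.continuum_power_aleph0, Cardinal.continuum_mul_self]

/-- at most continuum many of the spaces are isomorphic to a given one -/
theorem card_iso (B : Set Br) :
    #{C : Set Br // Nonempty (XB 𝕜 B ≃L[𝕜] XB 𝕜 C)} ≤ 𝔠 := by
  have H : ∀ C : {C : Set Br // Nonempty (XB 𝕜 B ≃L[𝕜] XB 𝕜 C)},
      ∃ θ : XB 𝕜 B →L[𝕜] L 𝕜, range θ = (XB 𝕜 C.1 : Set (L 𝕜)) := by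
    rintro ⟨C, ⟨i⟩⟩
    refine ⟨(XB 𝕜 C).subtypeL.comp (i : XB 𝕜 B →L[𝕜] XB 𝕜 C), ?_⟩
    ext f
    constructor
    · rintro ⟨x, rfl⟩
      exact (i x).2
    · intro hf
      refine ⟨i.symm ⟨f, hf⟩, ?_⟩
      show ((i (i.symm ⟨f, hf⟩) : XB 𝕜 C) : L 𝕜) = f
      rw [ContinuousLinearEquiv.apply_symm_apply]
  choose θ hθ using H
  have hinj : Function.Injective (fun (C : {C : Set Br // Nonempty (XB 𝕜 B ≃L[𝕜] XB 𝕜 C)})
      (n : ℕ) => ((evn 𝕜 n).comp (θ C) : StrongDual 𝕜 (XB 𝕜 B))) := by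
    intro C D hCD
    have h1 : θ C = θ D := by
      ext x n
      have h2 := congrFun hCD n
      have h3 := DFunLike.congr_fun h2 x
      exact h3
    apply Subtype.ext
    apply XB_inj (𝕜 := 𝕜)
    rw [← hθ C, ← hθ D, h1]
  refine (Cardinal.mk_le_of_injective hinj).trans ?_
  rw [← Cardinal.power_def, Cardinal.mk_nat]
  calc #(StrongDual 𝕜 (XB 𝕜 B)) ^ ℵ₀
      ≤ 𝔠 ^ ℵ₀ := Cardinal.power_le_power_right (card_dual B)
    _ = 𝔠 := Cardinal.continuum_power_aleph0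

/-- the indicators of different branches have distance at least one -/
theorem sep_ch {b b' : Br} (h : b ≠ b') : 1 ≤ ‖ch 𝕜 b - ch 𝕜 b'‖ := by
  obtain ⟨m, hm⟩ := nd_disj h
  have h1 := (ch 𝕜 b - ch 𝕜 b').norm_coe_le_norm (nd b m)
  have h2 : (ch 𝕜 b - ch 𝕜 b') (nd b m) = 1 := by
    show ch 𝕜 b (nd b m) - ch 𝕜 b' (nd b m) = 1
    rw [ch, ch, ind_apply, ind_apply, if_pos ⟨m, rfl⟩, if_neg, sub_zero]
    rintro ⟨k', hk'⟩
    exact hm m le_rfl k' hk'.symm
  rw [h2, norm_one] at h1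
  exact h1

theorem card_Br : #Br = 𝔠 := by
  change #(ℕ → Bool) = _
  rw [← Cardinal.power_def, Cardinal.mk_nat, Cardinal.mk_bool, Cardinal.two_power_aleph0]

section family

variable {K : Type} (g : K ⊕ K ↪ Br)

/-- the sets of branches -/
def BB (A : Set K) : Set Br := g '' (range Sum.inl ∪ Sum.inr '' A)

theorem BB_inj {A A' : Set K} (h : BB g A = BB g A') : A = A' := by
  have h1 := g.injective.image_injective h
  ext k
  have h2 : ∀ A : Set K, (Sum.inr k : K ⊕ K) ∈ range Sum.inl ∪ Sum.inr '' A ↔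
      k ∈ A := by
    intro A
    constructor
    · rintro (⟨x, hx⟩ | ⟨x, hx, hx'⟩)
      · exact absurd hx Sum.inl_ne_inr
      · rwa [← Sum.inr_injective hx']
    · intro hk
      exact Or.inr ⟨k, hk, rfl⟩
  rw [← h2 A, ← h2 A', h1]

end family

theorem family (𝕜 : Type) [RCLike 𝕜] (κ : Cardinal.{0}) (hκ : κ ≤ 𝔠) (hκ' : 𝔠 < 2 ^ κ) :
    ∃ (I : Type) (B : I → Set Br), #I = 2 ^ κ ∧ (∀ i, #(B i) ≤ κ) ∧
      (∀ i, ∀ D : Set (XB 𝕜 (B i)), Dense D → κ ≤ #D) ∧
      (∀ i j, i ≠ j → IsEmpty (XB 𝕜 (B i) ≃L[𝕜] XB 𝕜 (B j))) ∧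
      ∀ i, ¬ RepS 𝕜 (B i) := by
  have hinf : ℵ₀ ≤ κ := by
    by_contra hcon
    push Not at hcon
    have h1 : (2 : Cardinal.{0}) ^ κ < ℵ₀ := Cardinal.power_lt_aleph0 (by norm_num) hcon
    exact absurd (hκ'.trans h1) (not_lt.2 Cardinal.aleph0_le_continuum)
  obtain ⟨K, rfl⟩ : ∃ K : Type, #K = κ := ⟨κ.out, Cardinal.mk_out κ⟩
  have hg : #(K ⊕ K) ≤ #Br := by
    rw [Cardinal.mk_sum, Cardinal.lift_id, Cardinal.add_eq_self hinf, card_Br]
    exact hκ
  obtain ⟨g⟩ := Cardinal.le_def _ _ |>.mp hg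
  -- the index set
  let N : Type := {A : Set K // ¬ RepS 𝕜 (BB g A)}
  have hbig : ℵ₀ ≤ (2 : Cardinal.{0}) ^ #K := Cardinal.aleph0_le_continuum.trans hκ'.le
  have hN : #N = 2 ^ #K := by
    have h1 : #{A : Set K // RepS 𝕜 (BB g A)} ≤ 𝔠 := by
      refine le_trans (Cardinal.mk_le_of_injective (f := fun A : {A : Set K //
        RepS 𝕜 (BB g A)} => (⟨BB g A.1, A.2⟩ : {B : Set Br // RepS 𝕜 B})) ?_)
        (card_repS (𝕜 := 𝕜))
      intro A A' h
      exact Subtype.ext (BB_inj g (congrArg Subtype.val h))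
    have h2 : #(Set K) = 2 ^ #K := by rw [Cardinal.mk_set]
    have h3 : #{A : Set K // RepS 𝕜 (BB g A)} + #N = 2 ^ #K := by
      rw [← h2]
      exact Cardinal.mk_sum_compl {A : Set K | RepS 𝕜 (BB g A)}
    apply le_antisymm
    · rw [← h3]
      exact self_le_add_left _ _
    · by_contra hcon
      push Not at hcon
      have h4 := Cardinal.add_lt_of_lt hbig (h1.trans_lt hκ') hcon
      rw [h3] at h4
      exact lt_irrefl _ h4
  -- isomorphism classes
  let st : Setoid N :=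
    { r := fun A A' => Nonempty (XB 𝕜 (BB g A.1) ≃L[𝕜] XB 𝕜 (BB g A'.1))
      iseqv :=
        { refl := fun A => ⟨ContinuousLinearEquiv.refl 𝕜 _⟩
          symm := fun {A A'} h => ⟨h.some.symm⟩
          trans := fun {A A' A''} h h' => ⟨h.some.trans h'.some⟩ } }
  let I : Type := Quotient st
  have hI : #I = 2 ^ #K := by
    apply le_antisymm
    · rw [← hN]
      exact Cardinal.mk_quotient_le
    · by_contra hcon
      push Not at hcon
      have h1 : #N ≤ #I * 𝔠 := by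
        have h2 : #N = Cardinal.sum fun i : I => #{A : N // Quotient.mk st A = i} := by
          rw [← Cardinal.mk_sigma]
          exact Cardinal.mk_congr (Equiv.sigmaFiberEquiv (Quotient.mk st)).symm
        rw [h2]
        have h3 : ∀ i : I, #{A : N // Quotient.mk st A = i} ≤ 𝔠 := by
          intro i
          refine le_trans (Cardinal.mk_le_of_injective (f := fun A : {A : N //
            Quotient.mk st A = i} => (⟨BB g A.1.1, ?_⟩ : {C : Set Br //
            Nonempty (XB 𝕜 (BB g i.out.1) ≃L[𝕜] XB 𝕜 C)})) ?_) (card_iso (𝕜 := 𝕜) (BB g i.out.1))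
          · have h4 : Quotient.mk st i.out = Quotient.mk st A.1 := by
              rw [Quotient.out_eq, A.2]
            exact Quotient.exact h4
          · intro A A' h
            exact Subtype.ext (Subtype.ext (BB_inj g (congrArg Subtype.val h)))
        calc (Cardinal.sum fun i : I => #{A : N // Quotient.mk st A = i})
            ≤ Cardinal.sum fun _ : I => 𝔠 := Cardinal.sum_le_sum _ _ h3
          _ = #I * 𝔠 := by rw [Cardinal.sum_const, Cardinal.lift_id, Cardinal.lift_id]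
      have h5 := Cardinal.mul_lt_of_lt hbig hcon hκ'
      rw [hN] at h1
      exact absurd h5 (not_lt.2 h1)
  refine ⟨I, fun i => BB g i.out.1, hI, ?_, ?_, ?_, fun i => i.out.2⟩
  · intro i
    refine (Cardinal.mk_le_mk_of_subset (image_subset_range _ _)).trans ?_
    refine Cardinal.mk_range_le.trans ?_
    rw [Cardinal.mk_sum, Cardinal.lift_id, Cardinal.add_eq_self hinf]
  · intro i D hD
    have hmem : ∀ k : K, ch 𝕜 (g (Sum.inl k)) ∈ XB 𝕜 (BB g i.out.1) := fun k =>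
      (ch_mem_iff _ _).2 ⟨_, Or.inl ⟨k, rfl⟩, rfl⟩
    have hch : ∀ k : K, ∃ d ∈ D, dist (⟨_, hmem k⟩ : XB 𝕜 (BB g i.out.1)) d < 1 / 2 :=
      fun k => hD.exists_dist_lt _ (by norm_num)
    choose d hdD hd using hch
    refine Cardinal.mk_le_of_injective (f := fun k => (⟨d k, hdD k⟩ : D)) fun k k' hkk => ?_
    by_contra hne
    have hab' : d k = d k' := congrArg Subtype.val hkk
    have h6 := dist_triangle_right (⟨_, hmem k⟩ : XB 𝕜 (BB g i.out.1)) ⟨_, hmem k'⟩ (d k)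
    have h7 := hd k
    have h8 := hd k'
    rw [← hab'] at h8
    have h9 : dist (⟨_, hmem k⟩ : XB 𝕜 (BB g i.out.1)) ⟨_, hmem k'⟩ =
        ‖ch 𝕜 (g (Sum.inl k)) - ch 𝕜 (g (Sum.inl k'))‖ := by
      rw [Subtype.dist_eq, dist_eq_norm]
    have h10 := sep_ch (𝕜 := 𝕜) (b := g (Sum.inl k)) (b' := g (Sum.inl k')) fun h =>
      hne (Sum.inl_injective (g.injective h))
    linarith
  · intro i i' hne
    refine ⟨fun e => hne ?_⟩
    have h : Quotient.mk st i.out = Quotient.mk st i'.out := Quotient.sound ⟨e⟩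
    rwa [Quotient.out_eq, Quotient.out_eq] at h

/-- **Result.** (1) Full answer to Q1: over the real and over the complex field some Banach space
is not isomorphic to `Y** / Y` for any Banach space `Y`.
(2) For every cardinal `κ ≤ 𝔠` with `2 ^ κ > 𝔠` there are `2 ^ κ` pairwise non-isomorphic closed
subspaces of `ℓ_∞`, each containing all unit vectors, each the closed linear span of a set of at
most `κ` elements and without dense subsets of fewer than `κ` elements, none of which is isomorphic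
to `Y** / Y` for any Banach space `Y`.
(3) At most continuum many of the `2 ^ 𝔠` pairwise different closed subspaces `X_B` of `ℓ_∞` (the
closed span of the unit vectors and of the indicator functions of the branches in `B`) are
isomorphic to some `Y** / Y`. -/
theorem result (𝕜 : Type) [RCLike 𝕜] :
    (∃ (X : Type) (_ : NormedAddCommGroup X) (_ : NormedSpace 𝕜 X) (_ : CompleteSpace X),
      ¬ IsBidualQuotient.{u} 𝕜 X) ∧
    (∀ κ : Cardinal.{0}, κ ≤ 𝔠 → 𝔠 < 2 ^ κ →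
      ∃ (I : Type) (X : I → Submodule 𝕜 (BoundedContinuousFunction ℕ 𝕜)), #I = 2 ^ κ ∧
        (∀ i, IsClosed (X i : Set (BoundedContinuousFunction ℕ 𝕜))) ∧
        (∀ i n, ind 𝕜 {n} ∈ X i) ∧
        (∀ i, ∃ S : Set (BoundedContinuousFunction ℕ 𝕜), #S ≤ κ ∧
          X i = (Submodule.span 𝕜 S).topologicalClosure) ∧
        (∀ i, ∀ D : Set (X i), Dense D → κ ≤ #D) ∧
        (∀ i j, i ≠ j → IsEmpty (X i ≃L[𝕜] X j)) ∧
        ∀ i, ¬ IsBidualQuotient.{u} 𝕜 (X i)) ∧
    (Function.Injective (fun B : Set Br => XB 𝕜 B) ∧ #(Set Br) = 2 ^ 𝔠 ∧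
      #{B : Set Br // IsBidualQuotient.{u} 𝕜 (XB 𝕜 B)} ≤ 𝔠) := by
  have key : ∀ κ : Cardinal.{0}, κ ≤ 𝔠 → 𝔠 < 2 ^ κ →
      ∃ (I : Type) (X : I → Submodule 𝕜 (BoundedContinuousFunction ℕ 𝕜)), #I = 2 ^ κ ∧
        (∀ i, IsClosed (X i : Set (BoundedContinuousFunction ℕ 𝕜))) ∧
        (∀ i n, ind 𝕜 {n} ∈ X i) ∧
        (∀ i, ∃ S : Set (BoundedContinuousFunction ℕ 𝕜), #S ≤ κ ∧
          X i = (Submodule.span 𝕜 S).topologicalClosure) ∧
        (∀ i, ∀ D : Set (X i), Dense D → κ ≤ #D) ∧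
        (∀ i j, i ≠ j → IsEmpty (X i ≃L[𝕜] X j)) ∧
        ∀ i, ¬ IsBidualQuotient.{u} 𝕜 (X i) := by
    intro κ hκ hκ'
    obtain ⟨I, B, hI, hB, hD, hiso, hrep⟩ := family 𝕜 κ hκ hκ'
    have hinf : ℵ₀ ≤ κ := by
      by_contra hcon
      push Not at hcon
      have h1 : (2 : Cardinal.{0}) ^ κ < ℵ₀ := Cardinal.power_lt_aleph0 (by norm_num) hcon
      exact absurd (hκ'.trans h1) (not_lt.2 Cardinal.aleph0_le_continuum)
    refine ⟨I, fun i => XB 𝕜 (B i), hI, fun i => Submodule.isClosed_topologicalClosure _,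
      fun i n => ?_, fun i => ⟨_, ?_, rfl⟩, hD, hiso, fun i h => hrep i (repS_of_quotient h)⟩
    · exact Submodule.le_topologicalClosure _ (Submodule.subset_span (Or.inl ⟨n, rfl⟩))
    · refine (Cardinal.mk_union_le _ _).trans (Cardinal.add_le_of_le hinf ?_ ?_)
      · exact (Cardinal.mk_le_aleph0_iff.2 (countable_range (e 𝕜)).to_subtype).trans hinf
      · exact Cardinal.mk_image_le.trans (hB i)
  refine ⟨?_, key, fun B C h => XB_inj (𝕜 := 𝕜) (congrArg (fun M : Submodule 𝕜 (L 𝕜) =>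
    (M : Set (L 𝕜))) h), by rw [Cardinal.mk_set, card_Br], ?_⟩
  · obtain ⟨I, X, hI, hX, _, _, _, _, hq⟩ := key 𝔠 le_rfl (Cardinal.cantor _)
    have hne : Nonempty I := by
      rw [← Cardinal.mk_ne_zero_iff, hI]
      exact (lt_of_le_of_lt (zero_le) (Cardinal.cantor 𝔠)).ne'
    obtain ⟨i⟩ := hne
    exact ⟨X i, inferInstance, inferInstance, (hX i).completeSpace_coe, hq i⟩
  · refine le_trans (Cardinal.mk_le_of_injective (f := fun B : {B : Set Br //
      IsBidualQuotient.{u} 𝕜 (XB 𝕜 B)} => (⟨B.1, repS_of_quotient B.2⟩ :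
      {B : Set Br // RepS 𝕜 B})) ?_) (card_repS (𝕜 := 𝕜))
    intro B B' h
    exact Subtype.ext (congrArg (fun C : {B : Set Br // RepS 𝕜 B} => C.1) h)

end Pool.Agent.Results.MP_cdcde1_an.ManyNonQuotients
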